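import Pool.Agent.Lib.MP_417c68_gt_P.A.Ric

/-!
# MP_417c68_gt, project P, module B/Cpt: compactness in `GL(E)` and exponentials

PROOFS.  `isCompact_iso`: all norms on `E` are equivalent, so the isometries of `ip` are bounded in
`E →L[ℝ] E` together with their inverses; the set of isometries is closed; use
`Units.isClosedEmbedding_embedProduct` and the fact that closed bounded subsets of the finite
dimensional spaces `E →L[ℝ] E` and its opposite are compact (compare
`Pool/Agent/Lib/MP_417c68_gt/Cpt.lean`, `isCompact_KR`).  `continuous_ip`: finite dimension.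
`ex_add`, `ex_tendsto`: properties of the exponential series of the Banach algebra `E →L[ℝ] E`
(`NormedSpace.exp`; use `let +nondep : NormedAlgebra ℚ (E →L[ℝ] E) := .restrictScalars ℚ ℝ _`).
`ex_deriv`: `hasDerivAt_exp_smul_const`.
`ex_expand`: second order Taylor bound of `t ↦ exp (t X)` on `[-1, 1]`, from the power series
(or from the boundedness of the second derivative).
-/

noncomputable section

namespace Pool.Agent.MP417P

open Module

namespace LTS

variable {E : Type} [NormedAddCommGroup E] [NormedSpace ℝ E] [FiniteDimensional ℝ E] (S : LTS E)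

/-- the scalar product as a continuous bilinear map -/
private def cptIp : E →L[ℝ] E →L[ℝ] ℝ :=
  LinearMap.toContinuousLinearMap
    ((LinearMap.toContinuousLinearMap : (E →ₗ[ℝ] ℝ) ≃ₗ[ℝ] (E →L[ℝ] ℝ)).toLinearMap ∘ₗ S.ip)

/-- the triple product as a continuous trilinear map -/
private def cptT : E →L[ℝ] E →L[ℝ] E →L[ℝ] E :=
  LinearMap.toContinuousLinearMap
    { toFun := fun x => LinearMap.toContinuousLinearMap
        ((LinearMap.toContinuousLinearMap : (E →ₗ[ℝ] E) ≃ₗ[ℝ] (E →L[ℝ] E)).toLinearMap ∘ₗ S.T x)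
      map_add' := fun x y => by
        ext u w
        show S.T (x + y) u w = S.T x u w + S.T y u w
        rw [map_add, LinearMap.add_apply, LinearMap.add_apply]
      map_smul' := fun c x => by
        ext u w
        show S.T (c • x) u w = c • S.T x u w
        rw [map_smul, LinearMap.smul_apply, LinearMap.smul_apply] }

theorem continuous_ip : Continuous fun p : E × E => S.ip p.1 p.2 :=
  (cptIp S).continuous₂

theorem continuous_T : Continuous fun p : E × E × E => S.T p.1 p.2.1 p.2.2 := by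
  have h1 : Continuous fun p : E × E × E => cptT S p.1 p.2.1 p.2.2 :=
    (((cptT S).continuous.comp continuous_fst).clm_apply
      (continuous_fst.comp continuous_snd)).clm_apply (continuous_snd.comp continuous_snd)
  exact h1

/-- `ip x x ≤ C ‖x‖ ^ 2` and `‖x‖ ^ 2 ≤ C ip x x` -/
theorem ip_bound : ∃ C : ℝ, 0 < C ∧ ∀ x, S.ip x x ≤ C * ‖x‖ ^ 2 ∧ ‖x‖ ^ 2 ≤ C * S.ip x x := by
  have hup : ∀ x, S.ip x x ≤ ‖cptIp S‖ * ‖x‖ ^ 2 := by
    intro x
    have h1 : ‖cptIp S x x‖ ≤ ‖cptIp S‖ * ‖x‖ * ‖x‖ := (cptIp S).le_opNorm₂ x x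
    have h2 : S.ip x x ≤ ‖cptIp S x x‖ := le_abs_self _
    calc S.ip x x ≤ ‖cptIp S‖ * ‖x‖ * ‖x‖ := h2.trans h1
      _ = ‖cptIp S‖ * ‖x‖ ^ 2 := by ring
  have hlow : ∃ c : ℝ, 0 < c ∧ ∀ x, c * ‖x‖ ^ 2 ≤ S.ip x x := by
    have hcont : Continuous fun x : E => S.ip x x :=
      (continuous_ip S).comp (continuous_id.prodMk continuous_id)
    by_cases hne : (Metric.sphere (0 : E) 1).Nonempty
    · obtain ⟨x0, hx0, hmin⟩ := (isCompact_sphere (0 : E) 1).exists_isMinOn hne hcont.continuousOn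
      have hx00 : x0 ≠ 0 := by
        intro h
        rw [h, mem_sphere_zero_iff_norm, norm_zero] at hx0
        exact zero_ne_one hx0
      refine ⟨S.ip x0 x0, S.pos x0 hx00, fun x => ?_⟩
      by_cases hx : x = 0
      · rw [hx, norm_zero, map_zero]
        norm_num
      · have hn : ‖x‖ ≠ 0 := norm_ne_zero_iff.2 hx
        have h1 : (‖x‖⁻¹ • x) ∈ Metric.sphere (0 : E) 1 := by
          rw [mem_sphere_zero_iff_norm, norm_smul, norm_inv, norm_norm, inv_mul_cancel₀ hn]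
        have h2 : S.ip x0 x0 ≤ S.ip (‖x‖⁻¹ • x) (‖x‖⁻¹ • x) := hmin h1
        rw [map_smul, map_smul, LinearMap.smul_apply, smul_eq_mul, smul_eq_mul] at h2
        have h3 : 0 < ‖x‖ ^ 2 := by positivity
        have h4 : ‖x‖⁻¹ * (‖x‖⁻¹ * S.ip x x) * ‖x‖ ^ 2 = S.ip x x := by
          field_simp
        calc S.ip x0 x0 * ‖x‖ ^ 2 ≤ ‖x‖⁻¹ * (‖x‖⁻¹ * S.ip x x) * ‖x‖ ^ 2 :=
              mul_le_mul_of_nonneg_right h2 h3.le
          _ = S.ip x x := h4
    · refine ⟨1, one_pos, fun x => ?_⟩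
      have hx : x = 0 := by
        by_contra hx
        apply hne
        refine ⟨‖x‖⁻¹ • x, ?_⟩
        rw [mem_sphere_zero_iff_norm, norm_smul, norm_inv, norm_norm,
          inv_mul_cancel₀ (norm_ne_zero_iff.2 hx)]
      rw [hx, norm_zero, map_zero]
      norm_num
  obtain ⟨c, hc, hcx⟩ := hlow
  refine ⟨‖cptIp S‖ + c⁻¹, by positivity, fun x => ⟨?_, ?_⟩⟩
  · have h1 : 0 ≤ c⁻¹ * ‖x‖ ^ 2 := by positivity
    have h2 := hup x
    linarith [add_mul ‖cptIp S‖ c⁻¹ (‖x‖ ^ 2)]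
  · have h0 : 0 ≤ S.ip x x := le_trans (by positivity) (hcx x)
    have h1 : ‖x‖ ^ 2 ≤ c⁻¹ * S.ip x x := by
      rw [inv_mul_eq_div, le_div_iff₀ hc]
      linarith [hcx x]
    have h2 : 0 ≤ ‖cptIp S‖ * S.ip x x := mul_nonneg (norm_nonneg (cptIp S)) h0
    linarith [add_mul ‖cptIp S‖ c⁻¹ (S.ip x x)]

theorem isCompact_iso {C : Set (GLE E)} (hC : IsClosed C)
    (h : ∀ k ∈ C, ∀ x y, S.ip (k.1 x) (k.1 y) = S.ip x y) : IsCompact C := by
  obtain ⟨c, hc, hcx⟩ := S.ip_bound
  have hbd : ∀ u : E →L[ℝ] E, (∀ x, S.ip (u x) (u x) = S.ip x x) → ‖u‖ ≤ c := by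
    intro u hu
    refine ContinuousLinearMap.opNorm_le_bound _ hc.le fun x => ?_
    have h1 : ‖u x‖ ^ 2 ≤ (c * ‖x‖) ^ 2 := by
      calc ‖u x‖ ^ 2 ≤ c * S.ip (u x) (u x) := (hcx (u x)).2
        _ = c * S.ip x x := by rw [hu x]
        _ ≤ c * (c * ‖x‖ ^ 2) := mul_le_mul_of_nonneg_left (hcx x).1 hc.le
        _ = (c * ‖x‖) ^ 2 := by ring
    exact (pow_le_pow_iff_left₀ (norm_nonneg _) (by positivity) two_ne_zero).1 h1
  have hcb : IsCompact (Metric.closedBall (0 : E →L[ℝ] E) c) := by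
    have : ProperSpace (E →L[ℝ] E) := FiniteDimensional.proper_real _
    exact isCompact_closedBall _ _
  have h1 := hcb.prod (hcb.image MulOpposite.continuous_op)
  have h2 := (Units.isClosedEmbedding_embedProduct (α := E →L[ℝ] E)).isCompact_preimage h1
  refine h2.of_isClosed_subset hC fun k hk => ?_
  refine ⟨?_, (k⁻¹).1, ?_, rfl⟩
  · show k.1 ∈ Metric.closedBall (0 : E →L[ℝ] E) c
    rw [mem_closedBall_zero_iff]
    exact hbd k.1 fun x => h k hk x x
  · rw [mem_closedBall_zero_iff]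
    refine hbd _ fun x => ?_
    have h3 : k.1 ((k⁻¹).1 x) = x := by
      have h4 : k.1 * (k⁻¹).1 = 1 := k.mul_inv
      exact congrArg (fun u : E →L[ℝ] E => u x) h4
    calc S.ip ((k⁻¹).1 x) ((k⁻¹).1 x) = S.ip (k.1 ((k⁻¹).1 x)) (k.1 ((k⁻¹).1 x)) :=
          (h k hk _ _).symm
      _ = S.ip x x := by rw [h3]

omit [FiniteDimensional ℝ E] in
theorem continuous_apply_val (x : E) : Continuous fun k : GLE E => k.1 x :=
  (ContinuousLinearMap.apply ℝ E x).continuous.comp Units.continuous_val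

theorem ex_zero : ex (0 : E →L[ℝ] E) = 1 := by
  apply Units.ext
  show NormedSpace.exp (0 : E →L[ℝ] E) = 1
  exact NormedSpace.exp_zero

theorem ex_neg (X : E →L[ℝ] E) : ex (-X) = (ex X)⁻¹ := by
  apply Units.ext
  rfl

theorem continuous_ex : Continuous (ex : (E →L[ℝ] E) → GLE E) := by
  let +nondep : NormedAlgebra ℚ (E →L[ℝ] E) := .restrictScalars ℚ ℝ (E →L[ℝ] E)
  rw [Units.continuous_iff]
  constructor
  · exact NormedSpace.exp_continuous
  · exact NormedSpace.exp_continuous.comp continuous_neg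

theorem ex_deriv (X : E →L[ℝ] E) :
    HasDerivAt (fun t : ℝ => (ex (t • X)).1) X 0 := by
  have h := hasDerivAt_exp_smul_const (𝕂 := ℝ) X (0 : ℝ)
  rw [zero_smul, NormedSpace.exp_zero, one_mul] at h
  exact h

private theorem cpt_deriv (X : E →L[ℝ] E) (t : ℝ) :
    HasDerivAt (fun t : ℝ => (ex (t • X)).1) ((ex (t • X)).1 * X) t :=
  hasDerivAt_exp_smul_const (𝕂 := ℝ) X t

theorem ex_expand (X : E →L[ℝ] E) : ∃ C : ℝ, ∀ t : ℝ, |t| ≤ 1 →
    ‖(ex (t • X)).1 - 1 - t • X‖ ≤ C * t ^ 2 := by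
  have hcont : Continuous fun t : ℝ => (ex (t • X)).1 :=
    Units.continuous_val.comp (continuous_ex.comp (continuous_id.smul continuous_const))
  obtain ⟨M, hM⟩ := (isCompact_Icc (a := (-1 : ℝ)) (b := 1)).exists_bound_of_continuousOn
    hcont.continuousOn
  have hM0 : 0 ≤ M := (norm_nonneg _).trans (hM 0 (by simp))
  have hzero : (ex ((0 : ℝ) • X)).1 = 1 := by
    rw [zero_smul, ex_zero]
    rfl
  have h1 : ∀ s : ℝ, |s| ≤ 1 → ‖(ex (s • X)).1 - 1‖ ≤ M * ‖X‖ * |s| := by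
    intro s hs
    have hs' := abs_le.1 hs
    have h2 := (convex_Icc (-1 : ℝ) 1).norm_image_sub_le_of_norm_hasDerivWithin_le
      (f := fun t : ℝ => (ex (t • X)).1) (f' := fun t : ℝ => (ex (t • X)).1 * X)
      (C := M * ‖X‖) (x := 0) (y := s)
      (fun t _ => (cpt_deriv X t).hasDerivWithinAt)
      (fun t ht => (norm_mul_le _ _).trans
        (mul_le_mul_of_nonneg_right (hM t ht) (norm_nonneg _)))
      (by simp) ⟨hs'.1, hs'.2⟩
    rw [hzero, sub_zero, Real.norm_eq_abs] at h2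
    exact h2
  refine ⟨M * ‖X‖ * ‖X‖, fun t ht => ?_⟩
  have h2 := (convex_Icc (-|t|) |t|).norm_image_sub_le_of_norm_hasDerivWithin_le
    (f := fun t : ℝ => (ex (t • X)).1 - t • X) (f' := fun t : ℝ => (ex (t • X)).1 * X - X)
    (C := M * ‖X‖ * |t| * ‖X‖) (x := 0) (y := t)
    (fun s _ => by
      have h3 : HasDerivAt (fun t : ℝ => t • X) X s := by
        have h4 := (hasDerivAt_id s).smul_const X
        rw [one_smul] at h4
        exact h4
      exact ((cpt_deriv X s).sub h3).hasDerivWithinAt)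
    (fun s hs => by
      have hs1 : |s| ≤ |t| := abs_le.2 hs
      have h3 : (ex (s • X)).1 * X - X = ((ex (s • X)).1 - 1) * X := by
        rw [sub_mul, one_mul]
      rw [h3]
      refine (norm_mul_le _ _).trans (mul_le_mul_of_nonneg_right ?_ (norm_nonneg _))
      refine (h1 s (hs1.trans ht)).trans (mul_le_mul_of_nonneg_left hs1 ?_)
      exact mul_nonneg hM0 (norm_nonneg _))
    ⟨neg_nonpos.2 (abs_nonneg t), abs_nonneg t⟩ ⟨neg_abs_le t, le_abs_self t⟩
  rw [hzero, zero_smul, sub_zero, sub_zero, Real.norm_eq_abs] at h2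
  calc ‖(ex (t • X)).1 - 1 - t • X‖ = ‖(ex (t • X)).1 - t • X - 1‖ := by
        rw [sub_right_comm]
    _ ≤ M * ‖X‖ * |t| * ‖X‖ * |t| := h2
    _ = M * ‖X‖ * ‖X‖ * |t| ^ 2 := by ring
    _ = M * ‖X‖ * ‖X‖ * t ^ 2 := by rw [sq_abs]

private theorem cpt_hasSum (X : E →L[ℝ] E) (x : E) :
    HasSum (fun n : ℕ => ((n.factorial : ℝ)⁻¹) • ((X ^ n) x)) ((ex X).1 x) := by
  have h := NormedSpace.exp_series_hasSum_exp' (𝕂 := ℝ) X
  have h2 := h.mapL (ContinuousLinearMap.apply ℝ E x)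
  exact h2

/-- a closed subspace property: if `X` maps `V` to `V` then so does `exp X` -/
theorem ex_mem_sub {X : E →L[ℝ] E} {V : Submodule ℝ E} (h : ∀ x ∈ V, X x ∈ V) {x : E}
    (hx : x ∈ V) : (ex X).1 x ∈ V := by
  have hp : ∀ n : ℕ, (X ^ n) x ∈ V := by
    intro n
    induction n with
    | zero => exact hx
    | succ n ih =>
      rw [pow_succ']
      exact h _ ih
  have hcl : IsClosed (V : Set E) := V.closed_of_finiteDimensional
  refine hcl.mem_of_tendsto (cpt_hasSum X x) (Filter.Eventually.of_forall fun s => ?_)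
  exact V.sum_mem fun n _ => V.smul_mem _ (hp n)

/-- naturality of the exponential -/
theorem ex_nat {E' : Type} [NormedAddCommGroup E'] [NormedSpace ℝ E'] [FiniteDimensional ℝ E']
    {X : E →L[ℝ] E} {X' : E' →L[ℝ] E'} {f : E' →ₗ[ℝ] E} (h : ∀ x, f (X' x) = X (f x)) (x : E') :
    f ((ex X').1 x) = (ex X).1 (f x) := by
  have hp : ∀ n : ℕ, f ((X' ^ n) x) = (X ^ n) (f x) := by
    intro n
    induction n with
    | zero => rfl
    | succ n ih =>
      rw [pow_succ', pow_succ']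
      show f (X' ((X' ^ n) x)) = X ((X ^ n) (f x))
      rw [h, ih]
  have h1 := (cpt_hasSum X' x).mapL (LinearMap.toContinuousLinearMap f)
  have h2 := cpt_hasSum X (f x)
  have h3 : (fun n : ℕ => (LinearMap.toContinuousLinearMap f)
      (((n.factorial : ℝ)⁻¹) • ((X' ^ n) x))) =
      fun n : ℕ => ((n.factorial : ℝ)⁻¹) • ((X ^ n) (f x)) := by
    funext n
    show f (((n.factorial : ℝ)⁻¹) • ((X' ^ n) x)) = _
    rw [map_smul, hp]
  rw [h3] at h1
  exact h1.unique h2

theorem ex_fix {X : E →L[ℝ] E} {z : E} (h : X z = 0) : (ex X).1 z = z := by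
  have h1 := cpt_hasSum X z
  have h2 : HasSum (fun n : ℕ => ((n.factorial : ℝ)⁻¹) • ((X ^ n) z))
      (((Nat.factorial 0 : ℕ) : ℝ)⁻¹ • ((X ^ 0) z)) := by
    refine hasSum_single 0 fun n hn => ?_
    obtain ⟨m, rfl⟩ := Nat.exists_eq_succ_of_ne_zero hn
    rw [pow_succ]
    show _ • (X ^ m) (X z) = 0
    rw [h, map_zero, smul_zero]
  have h3 := h1.unique h2
  rw [h3, Nat.factorial_zero, Nat.cast_one, inv_one, one_smul]
  rfl

end LTS

end Pool.Agent.MP417P
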