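import Pool.Agent.Lib.MP_417c68_gt_P.B.Inn

/-!
# MP_417c68_gt, project P, module B/Ext: extension of inner automorphisms

PROOFS.
* `inn_ext`: `inn_induction` for `S'` and the property `p s`: there is `m ∈ Inn S` with `m f = f s`
  which fixes all `z` with `T (f x) (f y) z = 0`.  Generators: `m = exp (T (f x) (f y))` (`ex_nat`,
  `ex_fix`).  Products, inverses: clear (`f s s⁻¹ = f` for inverses).  Closed: `p` is the projection
  of a closed subset of `GL(E') × Inn S` along the compact space `Inn S`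
  (`isClosedMap_fst_of_compactSpace`
  or a sequence argument).
* `inn_prod`: `inn_ext` for the homomorphisms `fst` and `snd`.
* `inn_prod_mk`: `inn_ext` for the homomorphisms `x ↦ (x, 0)` and `y ↦ (0, y)`; multiply the two.
-/

noncomputable section

namespace Pool.Agent.MP417P

open Module

namespace LTS

variable {E E' : Type} [NormedAddCommGroup E] [NormedSpace ℝ E] [FiniteDimensional ℝ E]
  [NormedAddCommGroup E'] [NormedSpace ℝ E'] [FiniteDimensional ℝ E']

private theorem inv_app' {F : Type} [NormedAddCommGroup F] [NormedSpace ℝ F] (m : GLE F) (x : F) :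
    (m⁻¹).1 (m.1 x) = x := by
  have h : (m⁻¹).1 * m.1 = 1 := m.inv_mul
  exact DFunLike.congr_fun h x

private theorem app_inv' {F : Type} [NormedAddCommGroup F] [NormedSpace ℝ F] (m : GLE F) (x : F) :
    m.1 ((m⁻¹).1 x) = x := by
  have h : m.1 * (m⁻¹).1 = 1 := m.mul_inv
  exact DFunLike.congr_fun h x

private theorem ext_closed (S : LTS E) (f : E' →ₗ[ℝ] E) :
    IsClosed {s : GLE E' | ∃ m ∈ S.Inn, (∀ x, m.1 (f x) = f (s.1 x)) ∧
      ∀ z, (∀ x y, S.T (f x) (f y) z = 0) → m.1 z = z} := by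
  have hc : CompactSpace ↥S.Inn := isCompact_iff_compactSpace.mp S.inn_compact
  have hC : IsClosed {q : ↥S.Inn × GLE E' |
      (∀ x, q.1.1.1 (f x) = f (q.2.1 x)) ∧
        ∀ z, (∀ x y, S.T (f x) (f y) z = 0) → q.1.1.1 z = z} := by
    have e1 : IsClosed {q : ↥S.Inn × GLE E' |
        ∀ x, q.1.1.1 (f x) = f (q.2.1 x)} := by
      rw [Set.ofPred_forall]
      refine isClosed_iInter fun x => isClosed_eq ?_ ?_
      · exact (continuous_apply_val (f x)).comp (continuous_subtype_val.comp continuous_fst)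
      · exact f.continuous_of_finiteDimensional.comp
          ((continuous_apply_val x).comp continuous_snd)
    have e2 : IsClosed {q : ↥S.Inn × GLE E' |
        ∀ z, (∀ x y, S.T (f x) (f y) z = 0) → q.1.1.1 z = z} := by
      rw [Set.ofPred_forall]
      refine isClosed_iInter fun z => ?_
      rw [Set.ofPred_forall]
      refine isClosed_iInter fun _ => isClosed_eq ?_ continuous_const
      exact (continuous_apply_val z).comp (continuous_subtype_val.comp continuous_fst)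
    exact e1.inter e2
  have him := isClosedMap_snd_of_compactSpace (X := ↥S.Inn) (Y := GLE E') _ hC
  have heq : {s : GLE E' | ∃ m ∈ S.Inn, (∀ x, m.1 (f x) = f (s.1 x)) ∧
      ∀ z, (∀ x y, S.T (f x) (f y) z = 0) → m.1 z = z} =
      Prod.snd '' {q : ↥S.Inn × GLE E' | (∀ x, q.1.1.1 (f x) = f (q.2.1 x)) ∧
        ∀ z, (∀ x y, S.T (f x) (f y) z = 0) → q.1.1.1 z = z} := by
    ext s
    constructor
    · rintro ⟨m, hm, h1, h2⟩
      exact ⟨(⟨m, hm⟩, s), ⟨h1, h2⟩, rfl⟩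
    · rintro ⟨q, ⟨h1, h2⟩, rfl⟩
      exact ⟨q.1.1, q.1.2, h1, h2⟩
  rw [heq]
  exact him

theorem inn_ext {S : LTS E} {S' : LTS E'} {f : E' →ₗ[ℝ] E} (hf : Hom S' S f) {s : GLE E'}
    (hs : s ∈ S'.Inn) : ∃ m ∈ S.Inn, (∀ x, m.1 (f x) = f (s.1 x)) ∧
      ∀ z, (∀ x y, S.T (f x) (f y) z = 0) → m.1 z = z := by
  refine S'.inn_induction (p := fun s => ∃ m ∈ S.Inn, (∀ x, m.1 (f x) = f (s.1 x)) ∧
      ∀ z, (∀ x y, S.T (f x) (f y) z = 0) → m.1 z = z) (ext_closed S f) ?_ ?_ ?_ ?_ s hs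
  · exact ⟨1, S.Inn.one_mem, fun x => rfl, fun z _ => rfl⟩
  · intro x y
    refine ⟨ex (S.D (f x) (f y)), S.ex_mem _ _, fun z => ?_, fun z hz => ex_fix (hz x y)⟩
    exact (ex_nat (X := S.D (f x) (f y)) (X' := S'.D x y) (f := f) (fun w => hf x y w) z).symm
  · rintro a b ⟨ma, ha, ha1, ha2⟩ ⟨mb, hb, hb1, hb2⟩
    refine ⟨ma * mb, S.Inn.mul_mem ha hb, fun x => ?_, fun z hz => ?_⟩
    · show ma.1 (mb.1 (f x)) = f (a.1 (b.1 x))
      rw [hb1, ha1]
    · show ma.1 (mb.1 z) = z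
      rw [hb2 z hz, ha2 z hz]
  · rintro a ⟨m, hm, h1, h2⟩
    refine ⟨m⁻¹, S.Inn.inv_mem hm, fun x => ?_, fun z hz => ?_⟩
    · have h := h1 ((a⁻¹).1 x)
      rw [app_inv'] at h
      rw [← h, inv_app']
    · have h := inv_app' m z
      rw [h2 z hz] at h
      exact h

theorem inn_prod {S : LTS E} {S' : LTS E'} {u : GLE (E × E')} (hu : u ∈ (S.prod S').Inn) :
    ∃ a ∈ S.Inn, ∃ b ∈ S'.Inn, ∀ x, u.1 x = (a.1 x.1, b.1 x.2) := by
  have h1 : Hom (S.prod S') S (LinearMap.fst ℝ E E') := fun x y z => rfl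
  have h2 : Hom (S.prod S') S' (LinearMap.snd ℝ E E') := fun x y z => rfl
  obtain ⟨a, ha, ha1, -⟩ := inn_ext h1 hu
  obtain ⟨b, hb, hb1, -⟩ := inn_ext h2 hu
  refine ⟨a, ha, b, hb, fun x => Prod.ext ?_ ?_⟩
  · exact (ha1 x).symm
  · exact (hb1 x).symm

theorem inn_prod_mk {S : LTS E} {S' : LTS E'} {a : GLE E} {b : GLE E'} (ha : a ∈ S.Inn)
    (hb : b ∈ S'.Inn) : ∃ u ∈ (S.prod S').Inn, ∀ x, u.1 x = (a.1 x.1, b.1 x.2) := by
  have h1 : Hom S (S.prod S') (LinearMap.inl ℝ E E') := by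
    intro x y z
    refine Prod.ext rfl ?_
    show (0 : E') = S'.T 0 0 0
    rw [map_zero]
  have h2 : Hom S' (S.prod S') (LinearMap.inr ℝ E E') := by
    intro x y z
    refine Prod.ext ?_ rfl
    show (0 : E) = S.T 0 0 0
    rw [map_zero]
  obtain ⟨m₁, hm₁, e₁, f₁⟩ := inn_ext h1 ha
  obtain ⟨m₂, hm₂, e₂, f₂⟩ := inn_ext h2 hb
  refine ⟨m₁ * m₂, (S.prod S').Inn.mul_mem hm₁ hm₂, fun x => ?_⟩
  have a1 : m₂.1 ((x.1, 0) : E × E') = (x.1, 0) := by
    refine f₂ _ fun p q => Prod.ext ?_ ?_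
    · show S.T 0 0 x.1 = 0
      rw [map_zero, LinearMap.zero_apply]
    · show S'.T p q 0 = 0
      rw [map_zero]
  have a2 : m₂.1 ((0, x.2) : E × E') = (0, b.1 x.2) := e₂ x.2
  have a3 : m₁.1 ((x.1, 0) : E × E') = (a.1 x.1, 0) := e₁ x.1
  have a4 : m₁.1 ((0, b.1 x.2) : E × E') = (0, b.1 x.2) := by
    refine f₁ _ fun p q => Prod.ext ?_ ?_
    · show S.T p q 0 = 0
      rw [map_zero]
    · show S'.T 0 0 (b.1 x.2) = 0
      rw [map_zero, LinearMap.zero_apply]
  have hx : x = ((x.1, 0) : E × E') + (0, x.2) := Prod.ext (add_zero _).symm (zero_add _).symm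
  show m₁.1 (m₂.1 x) = _
  conv_lhs => rw [hx]
  rw [map_add, a1, a2, map_add, a3, a4]
  exact Prod.ext (add_zero _) (zero_add _)

/-- inner automorphisms fix the centre -/
theorem inn_cen {S : LTS E} {k : GLE E} (hk : k ∈ S.Inn) {c : E} (hc : c ∈ S.cen ⊤) :
    k.1 c = c := by
  have h1 : Hom S S (LinearMap.id : E →ₗ[ℝ] E) := fun x y z => rfl
  obtain ⟨m, -, e, f⟩ := inn_ext h1 hk
  have h2 : m.1 c = c := by
    refine f c fun x y => ?_
    show S.T x y c = 0
    have hx : S.T c x = 0 := hc.2 x trivial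
    have hy : S.T c y = 0 := hc.2 y trivial
    have hj := S.jac x y c
    rw [S.skew y c x, hx, hy, LinearMap.zero_apply, LinearMap.zero_apply, neg_zero, add_zero,
      add_zero] at hj
    exact hj
  exact (e c).symm.trans h2

end LTS

end Pool.Agent.MP417P
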