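import Pool.Agent.Lib.MP_417c68_gt_P.B.Cpt

/-!
# MP_417c68_gt, project P, module B/Inn: the group of inner automorphisms

PROOFS.
* `ex_aut`: `D = T a b` is a skew derivation.  Automorphism: for fixed `x y z` the two curves
  `t ↦ exp (t D) (T x y z)` and `t ↦ T (exp (t D) x) (exp (t D) y) (exp (t D) z)` satisfy the same
  linear differential equation `c' = D c`; or: `t ↦ exp (-t D) (T (exp (t D) x) (exp (t D) y)
  (exp (t D) z))` has derivative `0` everywhere.  The same for `ip (exp (t D) x) (exp (t D) y)`.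
* `inn_induction`: `Subgroup.closure_induction` and the closure; `{k | p k}` is closed.
* `inn_conn`: the subgroup generated by the `exp (T x y)` is path connected: `JoinedIn` from `1` to
  each generator by `t ↦ exp (T (t x) y)`, products and inverses by translation; then
  `IsPreconnected.closure`.
* `inn_compact`: `isCompact_iso` (the topological closure is closed).
-/

noncomputable section

namespace Pool.Agent.MP417P

open Module

namespace LTS

variable {E : Type} [NormedAddCommGroup E] [NormedSpace ℝ E] [FiniteDimensional ℝ E] (S : LTS E)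

private theorem inn_ex_mul_self (X : E →L[ℝ] E) (t : ℝ) :
    HasDerivAt (fun u : ℝ => (ex (u • X)).1) (X * (ex (t • X)).1) t :=
  hasDerivAt_exp_smul_const' X t

private theorem inn_ex_neg_deriv (X : E →L[ℝ] E) (t : ℝ) :
    HasDerivAt (fun u : ℝ => (ex (-(u • X))).1) ((ex (-(t • X))).1 * (-X)) t := by
  have h := hasDerivAt_exp_smul_const (-X) t
  have e : (fun u : ℝ => (ex (-(u • X))).1) = fun u : ℝ => NormedSpace.exp (u • -X) := by
    funext u
    show NormedSpace.exp (-(u • X)) = _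
    rw [smul_neg]
  rw [e]
  show HasDerivAt _ (NormedSpace.exp (-(t • X)) * (-X)) t
  rw [← smul_neg]
  exact h

private theorem inn_bil {F : Type} [NormedAddCommGroup F] [NormedSpace ℝ F]
    (B : E →ₗ[ℝ] E →ₗ[ℝ] F) {a b : ℝ → E} {a' b' : E} {t : ℝ} (ha : HasDerivAt a a' t)
    (hb : HasDerivAt b b' t) :
    HasDerivAt (fun u => B (a u) (b u)) (B a' (b t) + B (a t) b') t := by
  let B' : E →L[ℝ] E →L[ℝ] F := LinearMap.toContinuousLinearMap
    ((LinearMap.toContinuousLinearMap (𝕜 := ℝ) (E := E) (F' := F)).toLinearMap.comp B)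
  have h0 : HasDerivAt (fun u : ℝ => B' (a u)) (B' a') t :=
    B'.hasFDerivAt.comp_hasDerivAt t ha
  exact h0.clm_apply hb

/-- the triple product as a bilinear map to the continuous operators -/
private def inn_T : E →ₗ[ℝ] E →ₗ[ℝ] (E →L[ℝ] E) :=
  LinearMap.mk₂ ℝ S.D
    (fun x x' y => by
      ext z
      show S.T (x + x') y z = S.T x y z + S.T x' y z
      rw [map_add, LinearMap.add_apply, LinearMap.add_apply])
    (fun c x y => by
      ext z
      show S.T (c • x) y z = c • S.T x y z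
      rw [map_smul, LinearMap.smul_apply, LinearMap.smul_apply])
    (fun x y y' => by
      ext z
      show S.T x (y + y') z = S.T x y z + S.T x y' z
      rw [map_add, LinearMap.add_apply])
    (fun c x y => by
      ext z
      show S.T x (c • y) z = c • S.T x y z
      rw [map_smul, LinearMap.smul_apply])

private theorem inn_T_apply (x y z : E) : inn_T S x y z = S.T x y z := rfl

theorem ex_mem (x y : E) : ex (S.D x y) ∈ S.Inn :=
  Subgroup.le_topologicalClosure _ (Subgroup.subset_closure ⟨x, y, rfl⟩)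

private theorem inn_smul_D (t : ℝ) (x y : E) : t • S.D x y = S.D (t • x) y := by
  ext z
  show t • S.T x y z = S.T (t • x) y z
  rw [map_smul, LinearMap.smul_apply, LinearMap.smul_apply]

theorem ex_smul_mem (t : ℝ) (x y : E) : ex (t • S.D x y) ∈ S.Inn := by
  rw [inn_smul_D]
  exact S.ex_mem _ _

private theorem inn_ex_aut₁ (a b x y z : E) :
    (ex (S.D a b)).1 (S.T x y z) =
      S.T ((ex (S.D a b)).1 x) ((ex (S.D a b)).1 y) ((ex (S.D a b)).1 z) := by
  set X := S.D a b with hX
  have hd : ∀ t : ℝ, ∀ v : E, HasDerivAt (fun u : ℝ => (ex (u • X)).1 v) (X ((ex (t • X)).1 v)) t :=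
    fun t v => by
      have h := (inn_ex_mul_self X t).clm_apply (hasDerivAt_const t v)
      rw [map_zero, add_zero] at h
      exact h
  have hder : ∀ t : ℝ, HasDerivAt (fun u : ℝ => (ex (-(u • X))).1
      (inn_T S ((ex (u • X)).1 x) ((ex (u • X)).1 y) ((ex (u • X)).1 z))) 0 t := by
    intro t
    have h0' : HasDerivAt (fun u : ℝ => inn_T S ((ex (u • X)).1 x) ((ex (u • X)).1 y))
        (inn_T S (X ((ex (t • X)).1 x)) ((ex (t • X)).1 y) +
          inn_T S ((ex (t • X)).1 x) (X ((ex (t • X)).1 y))) t :=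
      inn_bil (inn_T S) (hd t x) (hd t y)
    have h1 : HasDerivAt (fun u : ℝ => inn_T S ((ex (u • X)).1 x) ((ex (u • X)).1 y)
        ((ex (u • X)).1 z)) ((inn_T S (X ((ex (t • X)).1 x)) ((ex (t • X)).1 y) +
          inn_T S ((ex (t • X)).1 x) (X ((ex (t • X)).1 y))) ((ex (t • X)).1 z) +
            inn_T S ((ex (t • X)).1 x) ((ex (t • X)).1 y) (X ((ex (t • X)).1 z))) t :=
      h0'.clm_apply (hd t z)
    have h2 := (inn_ex_neg_deriv X t).clm_apply h1
    refine h2.congr_deriv ?_
    generalize (ex (t • X)).1 x = x'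
    generalize (ex (t • X)).1 y = y'
    generalize (ex (t • X)).1 z = z'
    rw [mul_apply_eq_comp, ← map_add, neg_apply, add_apply, inn_T_apply, inn_T_apply,
      inn_T_apply, inn_T_apply, hX,
      D_apply, D_apply, D_apply, D_apply, S.der a b, neg_add_cancel, map_zero]
  have hc := is_const_of_deriv_eq_zero (fun t => (hder t).differentiableAt)
    (fun t => (hder t).deriv) 1 0
  simp only [one_smul, zero_smul, neg_zero, ex_zero, Units.val_one,
    one_apply_eq_self, inn_T_apply] at hc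
  rw [← hc]
  have h3 : (ex X).1 * (ex (-X)).1 = 1 := (ex X).val_inv
  show ((ex X).1 * (ex (-X)).1) _ = _
  rw [h3, one_apply_eq_self]

private theorem inn_ex_aut₂ (a b x y : E) :
    S.ip ((ex (S.D a b)).1 x) ((ex (S.D a b)).1 y) = S.ip x y := by
  set X := S.D a b with hX
  have hd : ∀ t : ℝ, ∀ v : E, HasDerivAt (fun u : ℝ => (ex (u • X)).1 v) (X ((ex (t • X)).1 v)) t :=
    fun t v => by
      have h := (inn_ex_mul_self X t).clm_apply (hasDerivAt_const t v)
      rw [map_zero, add_zero] at h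
      exact h
  have hder : ∀ t : ℝ, HasDerivAt (fun u : ℝ =>
      S.ip ((ex (u • X)).1 x) ((ex (u • X)).1 y)) 0 t := by
    intro t
    refine (inn_bil S.ip (hd t x) (hd t y)).congr_deriv ?_
    generalize (ex (t • X)).1 x = x'
    generalize (ex (t • X)).1 y = y'
    rw [hX, D_apply, D_apply, S.inv a b, neg_add_cancel]
  have hc := is_const_of_deriv_eq_zero (fun t => (hder t).differentiableAt)
    (fun t => (hder t).deriv) 1 0
  simp only [one_smul, zero_smul, ex_zero, Units.val_one, one_apply_eq_self] at hc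
  exact hc

theorem ex_aut (x y : E) : S.Aut (ex (S.D x y)) :=
  ⟨S.inn_ex_aut₁ x y, S.inn_ex_aut₂ x y⟩

theorem inn_closed : IsClosed (S.Inn : Set (GLE E)) :=
  Subgroup.isClosed_topologicalClosure _

theorem inn_induction {p : GLE E → Prop} (hcl : IsClosed {k | p k}) (h1 : p 1)
    (hex : ∀ x y, p (ex (S.D x y))) (hmul : ∀ a b, p a → p b → p (a * b))
    (hinv : ∀ a, p a → p a⁻¹) : ∀ k ∈ S.Inn, p k := by
  intro k hk
  have h2 : ((Subgroup.closure {u | ∃ x y, u = ex (S.D x y)} : Subgroup (GLE E)) : Set (GLE E)) ⊆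
      {k | p k} := by
    intro u hu
    refine Subgroup.closure_induction (p := fun u _ => p u) ?_ h1 (fun a b _ _ => hmul a b)
      (fun a _ => hinv a) hu
    rintro _ ⟨x, y, rfl⟩
    exact hex x y
  exact closure_minimal h2 hcl hk

theorem inn_aut : ∀ k ∈ S.Inn, S.Aut k := by
  refine S.inn_induction ?_ ?_ S.ex_aut ?_ ?_
  · have e : {k | S.Aut k} = (⋂ (x : E) (y : E) (z : E), {k : GLE E | k.1 (S.T x y z) =
        S.T (k.1 x) (k.1 y) (k.1 z)}) ∩ ⋂ (x : E) (y : E), {k : GLE E |
          S.ip (k.1 x) (k.1 y) = S.ip x y} := by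
      ext k
      simp only [Aut, Set.mem_ofPred_eq, Set.mem_inter_iff, Set.mem_iInter]
    rw [e]
    refine IsClosed.inter ?_ ?_
    · refine isClosed_iInter fun x => isClosed_iInter fun y => isClosed_iInter fun z => ?_
      refine isClosed_eq (continuous_apply_val _) ?_
      exact S.continuous_T.comp ((continuous_apply_val x).prodMk
        ((continuous_apply_val y).prodMk (continuous_apply_val z)))
    · refine isClosed_iInter fun x => isClosed_iInter fun y => ?_
      refine isClosed_eq ?_ continuous_const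
      exact S.continuous_ip.comp ((continuous_apply_val x).prodMk (continuous_apply_val y))
  · exact ⟨fun x y z => rfl, fun x y => rfl⟩
  · rintro a b ⟨ha, ha'⟩ ⟨hb, hb'⟩
    refine ⟨fun x y z => ?_, fun x y => ?_⟩
    · show a.1 (b.1 _) = S.T (a.1 (b.1 _)) (a.1 (b.1 _)) (a.1 (b.1 _))
      rw [hb, ha]
    · show S.ip (a.1 (b.1 _)) (a.1 (b.1 _)) = _
      rw [ha', hb']
  · rintro a ⟨ha, ha'⟩
    have h1 : ∀ x : E, a.1 ((a⁻¹).1 x) = x := fun x => by
      have h := congrArg (fun f : E →L[ℝ] E => f x) a.val_inv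
      exact h
    have h2 : ∀ x : E, (a⁻¹).1 (a.1 x) = x := fun x => by
      have h := congrArg (fun f : E →L[ℝ] E => f x) a.inv_val
      exact h
    refine ⟨fun x y z => ?_, fun x y => ?_⟩
    · rw [← h2 (S.T ((a⁻¹).1 x) ((a⁻¹).1 y) ((a⁻¹).1 z)), ha, h1, h1, h1]
    · rw [← ha', h1, h1]

theorem inn_compact : IsCompact (S.Inn : Set (GLE E)) :=
  S.isCompact_iso S.inn_closed fun k hk => (S.inn_aut k hk).2

theorem inn_conn : IsPreconnected (S.Inn : Set (GLE E)) := by
  set H : Subgroup (GLE E) := Subgroup.closure {u | ∃ x y, u = ex (S.D x y)} with hH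
  have hj : ∀ u ∈ H, JoinedIn (H : Set (GLE E)) 1 u := by
    intro u hu
    refine Subgroup.closure_induction (p := fun u _ => JoinedIn (H : Set (GLE E)) 1 u)
      ?_ ?_ ?_ ?_ hu
    · rintro _ ⟨x, y, rfl⟩
      refine JoinedIn.ofLine (f := fun t : ℝ => ex (t • S.D x y)) ?_ ?_ ?_ ?_
      · exact (continuous_ex.comp (continuous_id.smul continuous_const)).continuousOn
      · show ex ((0 : ℝ) • S.D x y) = 1
        rw [zero_smul, ex_zero]
      · show ex ((1 : ℝ) • S.D x y) = _
        rw [one_smul]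
      · rintro _ ⟨t, -, rfl⟩
        show ex (t • S.D x y) ∈ H
        rw [inn_smul_D]
        exact Subgroup.subset_closure ⟨_, _, rfl⟩
    · exact JoinedIn.refl H.one_mem
    · intro a b ha hb h1 h2
      have h3 : JoinedIn (H : Set (GLE E)) (a * 1) (a * b) := by
        obtain ⟨γ, hγ⟩ := h2
        exact ⟨γ.map (continuous_const.mul continuous_id : Continuous fun x => a * x),
          fun t => H.mul_mem ha (hγ t)⟩
      rw [mul_one] at h3
      exact h1.trans h3
    · intro a ha h1
      have h3 : JoinedIn (H : Set (GLE E)) (a⁻¹ * 1) (a⁻¹ * a) := by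
        obtain ⟨γ, hγ⟩ := h1
        exact ⟨γ.map (continuous_const.mul continuous_id : Continuous fun x => a⁻¹ * x),
          fun t => H.mul_mem (H.inv_mem ha) (hγ t)⟩
      rw [mul_one, inv_mul_cancel] at h3
      exact h3.symm
  have hc : IsPathConnected (H : Set (GLE E)) := ⟨1, H.one_mem, fun {y} hy => hj y hy⟩
  have h4 := hc.isConnected.isPreconnected.closure
  exact h4

theorem inn_grp : S.Grp S.Inn := ⟨S.inn_compact, S.inn_conn, le_rfl, S.inn_aut⟩

/-- inner automorphisms preserve the subspaces which are preserved by all `T x y` -/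
theorem inn_sub {V : Submodule ℝ E} (h : ∀ x y, ∀ z ∈ V, S.T x y z ∈ V) {k : GLE E}
    (hk : k ∈ S.Inn) : im k V = V := by
  have hcl : IsClosed (V : Set E) := V.closed_of_finiteDimensional
  have key : ∀ k ∈ S.Inn, (∀ v ∈ V, k.1 v ∈ V) ∧ ∀ v ∈ V, (k⁻¹).1 v ∈ V := by
    refine S.inn_induction ?_ ?_ ?_ ?_ ?_
    · have e : {k : GLE E | (∀ v ∈ V, k.1 v ∈ V) ∧ ∀ v ∈ V, (k⁻¹).1 v ∈ V} =
          (⋂ (v : E) (_ : v ∈ V), {k : GLE E | k.1 v ∈ V}) ∩
            ⋂ (v : E) (_ : v ∈ V), {k : GLE E | (k⁻¹).1 v ∈ V} := by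
        ext k
        simp only [Set.mem_ofPred_eq, Set.mem_inter_iff, Set.mem_iInter]
      rw [e]
      refine IsClosed.inter ?_ ?_
      · exact isClosed_iInter fun v => isClosed_iInter fun _ =>
          hcl.preimage (continuous_apply_val v)
      · exact isClosed_iInter fun v => isClosed_iInter fun _ =>
          hcl.preimage ((continuous_apply_val v).comp continuous_inv)
    · refine ⟨fun v hv => hv, fun v hv => ?_⟩
      rw [inv_one]
      exact hv
    · intro x y
      refine ⟨fun v hv => ex_mem_sub (fun z hz => h x y z hz) hv, fun v hv => ?_⟩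
      rw [← ex_neg]
      exact ex_mem_sub (fun z hz => V.neg_mem (h x y z hz)) hv
    · rintro a b ⟨ha, ha'⟩ ⟨hb, hb'⟩
      refine ⟨fun v hv => ha _ (hb _ hv), fun v hv => ?_⟩
      rw [mul_inv_rev]
      exact hb' _ (ha' _ hv)
    · rintro a ⟨ha, ha'⟩
      refine ⟨ha', fun v hv => ?_⟩
      rw [inv_inv]
      exact ha v hv
  obtain ⟨h1, h2⟩ := key k hk
  ext v
  rw [mem_im]
  constructor
  · rintro ⟨w, hw, rfl⟩
    exact h1 w hw
  · intro hv
    refine ⟨(k⁻¹).1 v, h2 v hv, ?_⟩
    exact congrArg (fun f : E →L[ℝ] E => f v) k.val_inv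

private theorem inn_det_sq {k : GLE E} (hk : ∀ x y, S.ip (k.1 x) (k.1 y) = S.ip x y) :
    LinearMap.det (k.1 : E →ₗ[ℝ] E) * LinearMap.det (k.1 : E →ₗ[ℝ] E) = 1 := by
  set b := Module.finBasis ℝ E
  have h1 : S.ip.compl₁₂ (k.1 : E →ₗ[ℝ] E) (k.1 : E →ₗ[ℝ] E) = S.ip := by
    refine LinearMap.ext fun x => LinearMap.ext fun y => ?_
    exact hk x y
  have h2 := LinearMap.toMatrix₂_compl₁₂ b b b b S.ip (k.1 : E →ₗ[ℝ] E) (k.1 : E →ₗ[ℝ] E)
  rw [h1] at h2
  have h3 := congrArg Matrix.det h2
  rw [Matrix.det_mul, Matrix.det_mul, Matrix.det_transpose, LinearMap.det_toMatrix] at h3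
  have h4 : (LinearMap.toMatrix₂ b b S.ip).det ≠ 0 := by
    rw [← LinearMap.separatingLeft_iff_det_ne_zero]
    intro x hx
    exact S.ip_zero (hx x)
  have h5 : (LinearMap.toMatrix₂ b b S.ip).det * (LinearMap.det (k.1 : E →ₗ[ℝ] E) *
      LinearMap.det (k.1 : E →ₗ[ℝ] E)) = (LinearMap.toMatrix₂ b b S.ip).det * 1 := by
    rw [mul_one]
    nth_rewrite 2 [h3]
    ring
  exact mul_left_cancel₀ h4 h5

/-- the determinant of an inner automorphism is one -/
theorem inn_det {k : GLE E} (hk : k ∈ S.Inn) : LinearMap.det (k.1 : E →ₗ[ℝ] E) = 1 := by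
  revert k
  have hmul : ∀ a b : GLE E, LinearMap.det ((a * b).1 : E →ₗ[ℝ] E) =
      LinearMap.det (a.1 : E →ₗ[ℝ] E) * LinearMap.det (b.1 : E →ₗ[ℝ] E) := by
    intro a b
    rw [← LinearMap.det_comp]
    rfl
  refine fun {k} hk => S.inn_induction (p := fun k => LinearMap.det (k.1 : E →ₗ[ℝ] E) = 1)
    ?_ ?_ ?_ ?_ ?_ k hk
  · refine isClosed_eq ?_ continuous_const
    exact (ContinuousLinearMap.continuous_det (𝕜 := ℝ) (E := E)).comp Units.continuous_val
  · show LinearMap.det ((1 : E →L[ℝ] E) : E →ₗ[ℝ] E) = 1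
    exact LinearMap.det_id
  · intro x y
    have e : ex (S.D x y) = ex ((1 / 2 : ℝ) • S.D x y) * ex ((1 / 2 : ℝ) • S.D x y) := by
      refine Units.ext ?_
      let +nondep : NormedAlgebra ℚ (E →L[ℝ] E) := .restrictScalars ℚ ℝ (E →L[ℝ] E)
      show NormedSpace.exp _ = NormedSpace.exp _ * NormedSpace.exp _
      rw [← NormedSpace.exp_add_of_commute (Commute.refl _), ← add_smul]
      norm_num
    have h2 := S.inn_smul_D (1 / 2) x y
    show LinearMap.det ((ex (S.D x y)).1 : E →ₗ[ℝ] E) = 1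
    rw [e, hmul, h2]
    exact S.inn_det_sq (S.ex_aut _ _).2
  · intro a b ha hb
    show LinearMap.det ((a * b).1 : E →ₗ[ℝ] E) = 1
    rw [hmul, ha, hb, mul_one]
  · intro a ha
    have h1 := hmul a a⁻¹
    rw [mul_inv_cancel, ha, one_mul] at h1
    show LinearMap.det ((a⁻¹).1 : E →ₗ[ℝ] E) = 1
    rw [← h1]
    exact LinearMap.det_id

end LTS

end Pool.Agent.MP417P
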