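import Pool.Agent.Lib.MP_417c68_gt_P.Defs

/-!
# MP_417c68_gt, project P, module B/Mean: the mean value over a compact subgroup of `GL(E)`

`mean K f` is the integral of `f` over `K` with respect to the Haar measure (with the Borel
`σ`-algebra on the subtype `K`; `mean K f = 0` by convention if `K` is not compact: the definition
may be changed by the owner, only the lemmas matter).

PROOFS.  `K` is a topological group, compact if `IsCompact (K : Set _)`
(`isCompact_iff_compactSpace`).  `mean_left`: invariance of the Haar measure.  `mean_inv`: the Haar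
measure of a compact group is invariant under inversion (uniqueness; Mathlib has
`MeasureTheory.Measure.IsInvInvariant` for compact groups or unimodularity of compact groups;
otherwise: `∫∫ f (a⁻¹ b) da db` computed in two ways with Fubini).  `mean_pos`: a continuous
  function
without zeros on a connected set has a constant sign; Haar measure is positive on open sets.
-/

noncomputable section

namespace Pool.Agent.MP417P

open MeasureTheory

namespace LTS

variable {E : Type} [NormedAddCommGroup E] [NormedSpace ℝ E] [FiniteDimensional ℝ E]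

open Classical in
/-- the mean value of `f` over the compact group `K` -/
def mean (K : Subgroup (GLE E)) (f : GLE E → ℝ) : ℝ :=
  if _h : IsCompact (K : Set (GLE E)) then
    letI : MeasurableSpace K := borel K
    haveI : BorelSpace K := ⟨rfl⟩
    haveI : CompactSpace K := isCompact_iff_compactSpace.1 _h
    ∫ k : K, f (k : GLE E) ∂(MeasureTheory.Measure.haar : Measure K)
  else 0

section haar

variable {G : Type} [Group G] [TopologicalSpace G] [IsTopologicalGroup G] [CompactSpace G]
  [MeasurableSpace G] [BorelSpace G]

/-- uniqueness of the Haar measure of a compact group -/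
private theorem mean_uniq (μ : Measure G) [μ.IsMulLeftInvariant] [IsFiniteMeasureOnCompacts μ]
    (h : μ Set.univ = (Measure.haar : Measure G) Set.univ) : μ = Measure.haar := by
  have h1 := Measure.isMulInvariant_eq_smul_of_compactSpace μ (Measure.haar : Measure G)
  have h0 : (Measure.haar : Measure G) Set.univ ≠ 0 :=
    (Measure.measure_univ_pos.2 (NeZero.ne (Measure.haar : Measure G))).ne'
  have ht : (Measure.haar : Measure G) Set.univ ≠ ⊤ := measure_ne_top _ _
  have h2 : Measure.haarScalarFactor μ (Measure.haar : Measure G) = 1 := by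
    have h3 := congrArg (fun ν : Measure G => ν Set.univ) h1
    simp only [Measure.smul_apply, h] at h3
    rw [ENNReal.smul_def, smul_eq_mul] at h3
    have h4 : (Measure.haarScalarFactor μ (Measure.haar : Measure G) : ENNReal) = 1 := by
      have h5 : (1 : ENNReal) * (Measure.haar : Measure G) Set.univ =
          (Measure.haarScalarFactor μ (Measure.haar : Measure G) : ENNReal) *
            (Measure.haar : Measure G) Set.univ := by rw [one_mul]; exact h3
      exact ((ENNReal.mul_left_inj h0 ht).1 h5).symm
    exact_mod_cast h4
  rw [h2, one_smul] at h1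
  exact h1

private theorem mean_right : (Measure.haar : Measure G).IsMulRightInvariant := by
  refine ⟨fun g => ?_⟩
  refine mean_uniq _ ?_
  rw [Measure.map_apply (measurable_mul_const g) MeasurableSet.univ, Set.preimage_univ]

private theorem mean_invInv : (Measure.haar : Measure G).IsInvInvariant := by
  have := mean_right (G := G)
  refine ⟨mean_uniq _ ?_⟩
  rw [Measure.inv_apply, Set.inv_univ]

end haar

variable {K : Subgroup (GLE E)} (hK : IsCompact (K : Set (GLE E)))

include hK

omit hK in
private theorem mean_int [CompactSpace K] [MeasurableSpace K] [BorelSpace K] {f : GLE E → ℝ}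
    (hf : Continuous f) : Integrable (fun k : K => f (k : GLE E)) (Measure.haar : Measure K) :=
  (hf.comp continuous_subtype_val).integrable_of_hasCompactSupport
    (HasCompactSupport.of_compactSpace _)

private theorem mean_pos {f : GLE E → ℝ} (hf : Continuous f) (h : ∀ k ∈ K, 0 < f k) :
    0 < mean K f := by
  unfold mean
  rw [dif_pos hK]
  let _ : MeasurableSpace K := borel K
  have _ : BorelSpace K := ⟨rfl⟩
  have _ : CompactSpace K := isCompact_iff_compactSpace.1 hK
  exact (hf.comp continuous_subtype_val).integral_pos_of_hasCompactSupport_nonneg_nonzero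
    (HasCompactSupport.of_compactSpace _) (fun k : K => (h k k.2).le) (x := 1) (h 1 K.one_mem).ne'

theorem mean_left {f : GLE E → ℝ} (hf : Continuous f) {u : GLE E} (hu : u ∈ K) :
    mean K (fun k => f (u * k)) = mean K f := by
  unfold mean
  rw [dif_pos hK, dif_pos hK]
  let _ : MeasurableSpace K := borel K
  have _ : BorelSpace K := ⟨rfl⟩
  have _ : CompactSpace K := isCompact_iff_compactSpace.1 hK
  exact integral_mul_left_eq_self (μ := (Measure.haar : Measure K))
    (fun k : K => f (k : GLE E)) ⟨u, hu⟩

theorem mean_inv {f : GLE E → ℝ} (hf : Continuous f) : mean K (fun k => f k⁻¹) = mean K f := by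
  unfold mean
  rw [dif_pos hK, dif_pos hK]
  let _ : MeasurableSpace K := borel K
  have _ : BorelSpace K := ⟨rfl⟩
  have _ : CompactSpace K := isCompact_iff_compactSpace.1 hK
  have _ := mean_invInv (G := K)
  exact integral_inv_eq_self (fun k : K => f (k : GLE E)) (Measure.haar : Measure K)

theorem mean_add {f g : GLE E → ℝ} (hf : Continuous f) (hg : Continuous g) :
    mean K (fun k => f k + g k) = mean K f + mean K g := by
  unfold mean
  rw [dif_pos hK, dif_pos hK, dif_pos hK]
  let _ : MeasurableSpace K := borel K
  have _ : BorelSpace K := ⟨rfl⟩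
  have _ : CompactSpace K := isCompact_iff_compactSpace.1 hK
  exact integral_add (mean_int hf) (mean_int hg)

theorem mean_smul {f : GLE E → ℝ} (hf : Continuous f) (c : ℝ) :
    mean K (fun k => c * f k) = c * mean K f := by
  unfold mean
  rw [dif_pos hK, dif_pos hK]
  let _ : MeasurableSpace K := borel K
  have _ : BorelSpace K := ⟨rfl⟩
  have _ : CompactSpace K := isCompact_iff_compactSpace.1 hK
  exact integral_const_mul c _

theorem mean_sum {ι : Type} (s : Finset ι) {f : ι → GLE E → ℝ} (hf : ∀ i, Continuous (f i)) :
    mean K (fun k => ∑ i ∈ s, f i k) = ∑ i ∈ s, mean K (f i) := by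
  unfold mean
  rw [dif_pos hK]
  simp only [dif_pos hK]
  let _ : MeasurableSpace K := borel K
  have _ : BorelSpace K := ⟨rfl⟩
  have _ : CompactSpace K := isCompact_iff_compactSpace.1 hK
  exact integral_finsetSum s fun i _ => mean_int (hf i)

omit hK in
/-- `mean K f` depends only on the values of `f` on `K` -/
theorem mean_congr {f g : GLE E → ℝ} (h : ∀ k ∈ K, f k = g k) : mean K f = mean K g := by
  unfold mean
  by_cases hK : IsCompact (K : Set (GLE E))
  · rw [dif_pos hK, dif_pos hK]
    have h1 : (fun k : K => f (k : GLE E)) = fun k : K => g (k : GLE E) :=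
      funext fun k => h k k.2
    simp only [h1]
  · rw [dif_neg hK, dif_neg hK]

omit hK in
theorem exists_of_mean {f : GLE E → ℝ} (h : mean K f ≠ 0) : ∃ k ∈ K, f k ≠ 0 := by
  by_contra hcon
  push Not at hcon
  refine h ?_
  rw [mean_congr (g := fun _ => 0) hcon]
  unfold mean
  by_cases hK : IsCompact (K : Set (GLE E))
  · rw [dif_pos hK]
    simp
  · rw [dif_neg hK]

theorem mean_ne_zero (hc : IsPreconnected (K : Set (GLE E))) {f : GLE E → ℝ} (hf : Continuous f)
    (h : ∀ k ∈ K, f k ≠ 0) : mean K f ≠ 0 := by
  have hsame : ∀ a ∈ K, ∀ b ∈ K, f a < 0 → ¬ 0 < f b := by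
    intro a ha b hb h1 h2
    obtain ⟨c, hc1, hc2⟩ := hc.intermediate_value (a := a) (b := b) ha hb hf.continuousOn
      ⟨h1.le, h2.le⟩
    exact h c hc1 hc2
  rcases lt_or_gt_of_ne (h 1 K.one_mem) with h1 | h1
  · have h2 := mean_pos hK (f := fun k => (-1) * f k) (continuous_const.mul hf) fun k hk => by
      have h3 : f k < 0 := lt_of_le_of_ne (not_lt.1 (hsame 1 K.one_mem k hk h1)) (h k hk)
      linarith
    rw [mean_smul hK hf] at h2
    intro h0
    rw [h0] at h2
    simp at h2
  · exact (mean_pos hK hf fun k hk => lt_of_le_of_ne
      (not_lt.1 fun h3 => hsame k hk 1 K.one_mem h3 h1) (h k hk).symm).ne'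

end LTS

end Pool.Agent.MP417P
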